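import Mathlib
import Pool.Agent.MP_bb7684_lc.Upper

set_option autoImplicit false

open Pool.Agent.MP_bb7684_lc

namespace Pool.Agent.Results.MP_bb7684_lc.IntersectionTight

/-- For all positive `k₁, k₂` there are a `k₁`-ambiguous and a `k₂`-ambiguous VASS language over a
two-letter alphabet whose intersection is not `n`-ambiguous for any `n` in `[k₁ k₂ - 1]`. -/
theorem result : ∀ k₁ k₂ : ℕ, 1 ≤ k₁ → 1 ≤ k₂ →
    ∃ L₁ L₂ : Set (List Bool), IsAmbLang k₁ L₁ ∧ IsAmbLang k₂ L₂ ∧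
      ∀ n : ℕ, 1 ≤ n → n ≤ k₁ * k₂ - 1 → ¬ IsAmbLang n (L₁ ∩ L₂) := by
  intro k₁ k₂ _ _
  obtain ⟨L₁, L₂, h1, h2, h3⟩ := main k₁ k₂
  exact ⟨L₁, L₂, h1, h2, fun n hn hn' => h3 n (by omega)⟩

end Pool.Agent.Results.MP_bb7684_lc.IntersectionTight
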